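import Pool.Agent.H3.Skel3

set_option autoImplicit false

namespace Pool.Agent.Results.MP_7bb607_co.Necklace

open Pool.Agent.H3

theorem result : ∃ (Δ : Finset (Finset (Fin 8))) (p : Fin 8 → Fin 3 → ℝ),
    Skel.IsComplex Δ ∧ (∀ σ ∈ Δ, ∃ τ ∈ Δ, σ ⊆ τ ∧ τ.card = 3) ∧
    Skel.FacesIndep Δ 3 p ∧ Skel.FacesIndep Δ 3 (fun v => (Fin.init (p v) : Fin 2 → ℝ)) ∧
    Sk.betti Δ 3 p 2 = 0 ∧ 0 < Sk.betti Δ 3 (fun v => (Fin.init (p v) : Fin 2 → ℝ)) 2 :=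
  ⟨Skel.Δ0, Skel.p0, Skel.cx, Skel.pure0, Skel.ind_p, Skel.ind_q,
    (Sk.betti_eq _ _ _ _).trans Skel.b3, lt_of_lt_of_eq Skel.b2 (Sk.betti_eq _ _ _ _).symm⟩

end Pool.Agent.Results.MP_7bb607_co.Necklace
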